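import Mathlib
import Pool.Agent.H30.Refine

set_option autoImplicit false

namespace Pool.Agent.Results.MP_ff4a33_gt.Cubes

open Pool.Agent.H30.Refine

theorem result (d : ℕ) (hd : 1 ≤ d) :
    ∃ (C : Set ((Fin d → ℝ) × ℝ)) (T : Set ((Fin d × Bool) ⊕ Option (Fin d) → ℝ))
    (D : Set ((Fin d × Bool) ⊕ Option (Fin d) → ℝ))
    (f : ((Fin d × Bool) ⊕ Option (Fin d) → ℝ) → (Fin d → ℝ) × ℝ)
    (W : Set (T → ℝ)) (g : (T → ℝ) → (C → ℝ)),
    IsPolytope C ∧ (∀ k, ¬ IsSimplex C k) ∧ (C.extremePoints ℝ).ncard = 2 ^ d + d + 1 ∧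
      IsSimplex T (3 * d) ∧ Refines C T D f W g := by
  obtain ⟨W, g, h⟩ := refines (d := d) hd
  exact ⟨_, _, _, _, W, g, ⟨_, Set.finite_range _, rfl⟩, not_simplex hd,
    ncard_ext hd, std_simplex, h⟩

end Pool.Agent.Results.MP_ff4a33_gt.Cubes
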